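import Pool.Agent.KDT.StmtsK
import Pool.Agent.Helper21_SZT.MII
import Pool.Agent.Helper77_SZT.MIK
import Pool.Agent.Helper88_SZT.PEL

set_option autoImplicit false

/-!
# KDT, row LVA (helper28): generators of the powers of a translate
-/

namespace Pool.Agent.KDT.H28

open Polynomial NumberField H58Q Pool.Agent.SZT Pool.Agent.SZT.H88

/-- The last part of the proof of PEL. -/
theorem cop_of_good {K : Type} [Field K] (f A B U W : K[X]) (M : ℕ) (hK : (2 : K) ≠ 0)
    (hG : Good f A B) (hM : 0 < M) (hspan : (MI f A B) ^ M = Ideal.span {(⟨U, W⟩ : Q K f)})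
    (hpell : U ^ 2 - f * W ^ 2 = A ^ M) : IsCoprime A U := by
  have hA : A ≠ 0 := hG.monic.ne_zero
  apply isCoprime_of_irreducible_dvd
  · rintro ⟨h, -⟩
    exact hA h
  intro p hp hpA hpU
  have hpf : ¬ p ∣ f := by
    intro hpf
    exact hp.not_isUnit (hG.cop.isUnit_of_dvd' hpA hpf)
  have hprime : Prime p := hp.prime
  have hpBf : p ∣ B ^ 2 - f := hpA.trans hG.dvd
  have hpW : p ∣ W := by
    have h3 : p ∣ f * W ^ 2 := by
      have h4 : f * W ^ 2 = U ^ 2 - A ^ M := by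
        rw [← hpell]; ring
      rw [h4]
      exact dvd_sub (dvd_pow hpU (by norm_num)) (dvd_pow hpA hM.ne')
    rcases hprime.dvd_or_dvd h3 with h4 | h4
    · exact absurd h4 hpf
    · exact hprime.dvd_of_dvd_pow h4
  have hpB : ¬ p ∣ 2 * B := by
    intro h3
    rcases hprime.dvd_or_dvd h3 with h4 | h4
    · have h5 : IsUnit (2 : K[X]) := by
        have : (2 : K[X]) = C 2 := rfl
        rw [this]
        exact Polynomial.isUnit_C.mpr (isUnit_iff_ne_zero.mpr hK)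
      exact hp.not_isUnit (isUnit_of_dvd_unit h4 h5)
    · apply hpf
      have h6 : f = B ^ 2 - (B ^ 2 - f) := by ring
      rw [h6]
      exact dvd_sub (dvd_pow h4 (by norm_num)) hpBf
  obtain ⟨a, b, hab⟩ : IsCoprime p (2 * B) := (Irreducible.coprime_iff_not_dvd hp).mpr hpB
  have hcomax : IsCoprime (MI f A B) (MI f p (-B)) := by
    rw [Ideal.isCoprime_iff_sup_eq, Ideal.eq_top_iff_one]
    have e1 : (⟨-B, 1⟩ : Q K f) ∈ MI f A B ⊔ MI f p (-B) :=
      Ideal.mem_sup_left (Ideal.subset_span (by simp))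
    have e2 : (⟨- -B, 1⟩ : Q K f) ∈ MI f A B ⊔ MI f p (-B) :=
      Ideal.mem_sup_right (Ideal.subset_span (by simp))
    have e3 : (⟨p, 0⟩ : Q K f) ∈ MI f A B ⊔ MI f p (-B) :=
      Ideal.mem_sup_right (Ideal.subset_span (by simp))
    have e4 := Ideal.add_mem _ (Ideal.mul_mem_left _ (⟨a, 0⟩ : Q K f) e3)
      (Ideal.mul_mem_left _ (⟨b, 0⟩ : Q K f) (Ideal.sub_mem _ e2 e1))
    have e5 : (⟨a, 0⟩ : Q K f) * ⟨p, 0⟩ + ⟨b, 0⟩ * (⟨- -B, 1⟩ - ⟨-B, 1⟩) = 1 := by
      rw [QuadraticAlgebra.mk_sub_mk, mk_mul, mk_mul]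
      have h5 : (1 : Q K f) = ⟨1, 0⟩ := rfl
      rw [h5]
      refine QuadraticAlgebra.ext ?_ ?_
      · rw [QuadraticAlgebra.re_add]
        change (a * p + f * 0 * 0) + (b * (- -B - -B) + f * 0 * (1 - 1)) = 1
        rw [← hab]; ring
      · rw [QuadraticAlgebra.im_add]
        change (a * 0 + 0 * p) + (b * (1 - 1) + 0 * (- -B - -B)) = 0
        ring
    rw [e5] at e4
    exact e4
  have hcomax2 : IsCoprime ((MI f A B) ^ M) (MI f p (-B)) := hcomax.pow_left
  have hle : (MI f A B) ^ M ≤ MI f p (-B) := by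
    rw [hspan, Ideal.span_singleton_le_iff_mem]
    obtain ⟨U', hU'⟩ := hpU
    obtain ⟨W', hW'⟩ := hpW
    have h3 : (⟨U, W⟩ : Q K f) = ⟨U', W'⟩ * ⟨p, 0⟩ := by
      rw [mk_mul, hU', hW']
      congr 1
      · ring
      · ring
    rw [h3]
    exact Ideal.mul_mem_left _ _ (Ideal.subset_span (by simp))
  have htop : MI f p (-B) = ⊤ := by
    rw [Ideal.isCoprime_iff_sup_eq] at hcomax2
    rw [← hcomax2]
    exact (sup_eq_right.mpr hle).symm
  have hone : (⟨1, 0⟩ : Q K f) ∈ MI f p (-B) := by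
    rw [htop]; trivial
  have h3 := (Pool.Agent.SZT.H77.mik K f p (-B) 1 0 (by rw [neg_sq]; exact hpBf)).mp hone
  rw [zero_mul, add_zero] at h3
  exact hp.not_isUnit (isUnit_of_dvd_one h3)

theorem span_neg_one {K : Type} [Field K] (f V : K[X]) :
    Ideal.span {(⟨-V, -1⟩ : Q K f)} = Ideal.span {(⟨V, 1⟩ : Q K f)} := by
  have h : (⟨-V, -1⟩ : Q K f) = (-1) * ⟨V, 1⟩ := by
    have : (-1 : Q K f) = ⟨-1, 0⟩ := by
      rw [show (1 : Q K f) = ⟨1, 0⟩ from rfl, QuadraticAlgebra.neg_mk, neg_zero]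
    rw [this, mk_mul]
    refine QuadraticAlgebra.ext ?_ ?_
    · change -V = -1 * V + f * 0 * 1
      ring
    · change -1 = -1 * 1 + 0 * V
      ring
  rw [h]
  exact Ideal.span_singleton_mul_left_unit (isUnit_one.neg) _

theorem norm_mk {K : Type} [Field K] (f U W : K[X]) :
    (⟨U, W⟩ : Q K f).norm = U ^ 2 - f * W ^ 2 := by
  rw [norm_eq]

theorem canc {R : Type} [CommRing R] [IsDomain R] (w v : R) (J : Ideal R) (hw : w ≠ 0)
    (h : Ideal.span {w} * J = Ideal.span {v}) : ∃ z : R, v = w * z ∧ J = Ideal.span {z} := by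
  have h' : v ∈ Ideal.span {w} * J := by
    rw [h]
    exact Ideal.mem_span_singleton_self _
  have h2 : v ∈ Ideal.span {w} := (Ideal.mul_le_left : Ideal.span {w} * J ≤ Ideal.span {w}) h'
  obtain ⟨z, hz⟩ := Ideal.mem_span_singleton.mp h2
  refine ⟨z, hz, ?_⟩
  have h3 : Ideal.span {w} * J = Ideal.span {w} * Ideal.span {z} := by
    rw [h, hz, Ideal.span_singleton_mul_span_singleton]
  exact (Ideal.span_singleton_mul_right_inj hw).mp h3

theorem reord {R : Type} [CommRing R] (z a b : R) : z * a * b = a * b * z := by ring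

/-- **Row LVA.** -/
theorem lva : LvaStatement := by
  intro K _ f A B A' B' V U W a M hK hmon hdeg hsq hroot hG hG' hT hGen
  have : IsDomain (Q K f) := isDomain (g := 2) (by rw [hdeg])
  obtain ⟨r, hr⟩ := hGen.even
  have hM2 : M / 2 = r := by omega
  have hA0 : A ≠ 0 := hG.monic.ne_zero
  have hXa : (X - C a : K[X]) ≠ 0 := X_sub_C_ne_zero a
  -- the conjugate of `idl`
  have c1 : MI f A (-B) * MI f (X - C a) 0 * MI f A' B' = Ideal.span {(⟨V, 1⟩ : Q K f)} := by
    have h := congrArg (Ideal.map (cj f)) hT.idl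
    rw [Ideal.map_mul, Ideal.map_mul, map_cj_MI, map_cj_MI, map_cj_MI, Ideal.map_span,
      Set.image_singleton, cj_mk, neg_zero, neg_neg, span_neg_one] at h
    exact h
  -- the conjugate of `gen`
  have c2 : MI f A (-B) ^ M = Ideal.span {(⟨U, -W⟩ : Q K f)} := by
    rw [← map_cj_MI, ← Ideal.map_pow, hGen.gen, Ideal.map_span, Set.image_singleton, cj_mk]
  have c3 : MI f (X - C a) 0 ^ M = Ideal.span {(⟨(X - C a) ^ (M / 2), 0⟩ : Q K f)} := by
    have h := Pool.Agent.SZT.H21.mii K f (X - C a) 0 hK hsq (by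
      rw [zero_pow (by norm_num), zero_sub, dvd_neg, dvd_iff_isRoot]
      exact hroot)
    rw [neg_zero] at h
    rw [hM2, hr, ← two_mul, pow_mul, sq, h, Ideal.span_singleton_pow, mk_pow]
  have hU0 : (⟨U, -W⟩ : Q K f) ≠ 0 := by
    intro h0
    have h1 := congrArg QuadraticAlgebra.norm h0
    rw [norm_mk, QuadraticAlgebra.norm_zero, neg_sq, hGen.pell] at h1
    exact pow_ne_zero M hA0 h1
  have hX0 : (⟨(X - C a) ^ (M / 2), 0⟩ : Q K f) ≠ 0 := by
    intro h0
    have h1 := congrArg QuadraticAlgebra.re h0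
    exact pow_ne_zero (M / 2) hXa h1
  obtain ⟨z, hz, c5⟩ := canc ((⟨U, -W⟩ : Q K f) * ⟨(X - C a) ^ (M / 2), 0⟩) ((⟨V, 1⟩ : Q K f) ^ M)
    (MI f A' B' ^ M) (mul_ne_zero hU0 hX0) (by
      rw [← Ideal.span_singleton_pow, ← c1, mul_pow, mul_pow, c2, c3,
        Ideal.span_singleton_mul_span_singleton])
  have hpell : z.re ^ 2 - f * z.im ^ 2 = A' ^ M := by
    have h := congrArg QuadraticAlgebra.norm hz
    rw [map_pow, map_mul, map_mul, norm_mk, norm_mk, norm_mk, norm_eq, neg_sq, hGen.pell] at h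
    have e1 : (V ^ 2 - f * 1 ^ 2) ^ M = ((X - C a) * A * A') ^ M := by
      have e2 : V ^ 2 - f * 1 ^ 2 = -((X - C a) * A * A') := by
        rw [← hT.eq]
        ring
      rw [e2, hGen.even.neg_pow]
    have e3 : ((X - C a : K[X]) ^ (M / 2)) ^ 2 - f * 0 ^ 2 = (X - C a) ^ M := by
      rw [← pow_mul, zero_pow (by norm_num), mul_zero, sub_zero]
      congr 1
      omega
    rw [e1, e3, mul_pow, mul_pow] at h
    have hne : (X - C a : K[X]) ^ M * A ^ M ≠ 0 :=
      mul_ne_zero (pow_ne_zero _ hXa) (pow_ne_zero _ hA0)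
    apply mul_left_cancel₀ hne
    rw [h]
    ring
  refine ⟨z.re, z.im, ⟨hGen.pos, hGen.even, c5, hpell,
    cop_of_good f A' B' z.re z.im M hK hG' hGen.pos c5 hpell⟩, ?_⟩
  rw [hz]
  exact reord z _ _

end Pool.Agent.KDT.H28
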