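import Pool.Agent.KDT.StmtsP

set_option autoImplicit false

/-!
# KDT, block Z, row BEZ (helper28)
-/

namespace Pool.Agent.KDT.H28

open Polynomial Pool.Agent.KDT.Z

/-- **Row BEZ.** -/
theorem zbez (h : EliStatement) : BezStatement := by
  classical
  intro n k _ Φ G hΦ hG hirr hnd T hT
  obtain ⟨R0, R1, h0, h1, d0, d1, hv⟩ := h n k Φ G hΦ hG hirr hnd
  have hsub : T ⊆ R0.roots.toFinset ×ˢ R1.roots.toFinset := by
    intro x hx
    obtain ⟨a, b⟩ := hT x hx
    obtain ⟨e0, e1⟩ := hv k x.1 x.2 a b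
    rw [Finset.mem_product, Multiset.mem_toFinset, Multiset.mem_toFinset, mem_roots h0, mem_roots h1,
      IsRoot.def, IsRoot.def]
    refine ⟨?_, ?_⟩
    · rw [← e0, coe_aeval_eq_eval]
    · rw [← e1, coe_aeval_eq_eval]
  refine (Finset.card_le_card hsub).trans ?_
  rw [Finset.card_product]
  have c0 : R0.roots.toFinset.card ≤ 2 * n ^ 2 :=
    (Multiset.toFinset_card_le _).trans ((card_roots' R0).trans d0)
  have c1 : R1.roots.toFinset.card ≤ 2 * n ^ 2 :=
    (Multiset.toFinset_card_le _).trans ((card_roots' R1).trans d1)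
  calc R0.roots.toFinset.card * R1.roots.toFinset.card ≤ (2 * n ^ 2) * (2 * n ^ 2) :=
        Nat.mul_le_mul c0 c1
    _ = 4 * n ^ 4 := by ring

end Pool.Agent.KDT.H28
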